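import Pool.Agent.Q54.EM.StmA

/-!
# Project EM: job EEL
-/

set_option autoImplicit false
set_option linter.all false

namespace Pool.Agent.Q257.EM

open Finset Pool.Agent.Q54.EM

section
variable {ι : Type} [Fintype ι] (p x : ι → ℝ)

theorem EE_zero (f : ℝ → ℝ) : EE p x 0 f = f 0 := rfl

theorem EE_succ (n : ℕ) (f : ℝ → ℝ) :
    EE p x (n + 1) f = ∑ i, p i * EE p x n (fun s => f (s + x i)) := rfl

theorem EE_add (n : ℕ) : ∀ f g : ℝ → ℝ,
    EE p x n (fun s => f s + g s) = EE p x n f + EE p x n g := by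
  induction n with
  | zero => intro f g; rfl
  | succ n ih =>
    intro f g
    rw [EE_succ, EE_succ, EE_succ, ← sum_add_distrib]
    refine sum_congr rfl fun i _ => ?_
    rw [ih (fun s => f (s + x i)) (fun s => g (s + x i)), mul_add]

theorem EE_sub (n : ℕ) : ∀ f g : ℝ → ℝ,
    EE p x n (fun s => f s - g s) = EE p x n f - EE p x n g := by
  induction n with
  | zero => intro f g; rfl
  | succ n ih =>
    intro f g
    rw [EE_succ, EE_succ, EE_succ, ← sum_sub_distrib]
    refine sum_congr rfl fun i _ => ?_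
    rw [ih (fun s => f (s + x i)) (fun s => g (s + x i)), mul_sub]

theorem EE_mul (n : ℕ) : ∀ (c : ℝ) (f : ℝ → ℝ),
    EE p x n (fun s => c * f s) = c * EE p x n f := by
  induction n with
  | zero => intro c f; rfl
  | succ n ih =>
    intro c f
    rw [EE_succ, EE_succ, mul_sum]
    refine sum_congr rfl fun i _ => ?_
    rw [ih c (fun s => f (s + x i))]
    ring

theorem EE_mono (hp : ∀ i, 0 ≤ p i) (hx : ∀ i, 0 ≤ x i) (n : ℕ) : ∀ f g : ℝ → ℝ,
    (∀ s, 0 ≤ s → f s ≤ g s) → EE p x n f ≤ EE p x n g := by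
  induction n with
  | zero => intro f g h; exact h 0 le_rfl
  | succ n ih =>
    intro f g h
    rw [EE_succ, EE_succ]
    refine sum_le_sum fun i _ => mul_le_mul_of_nonneg_left ?_ (hp i)
    exact ih _ _ fun s hs => h _ (add_nonneg hs (hx i))

theorem EE_const (hs : ∑ i, p i = 1) (n : ℕ) : ∀ c : ℝ, EE p x n (fun _ => c) = c := by
  induction n with
  | zero => intro c; rfl
  | succ n ih =>
    intro c
    rw [EE_succ]
    simp only [ih]
    rw [← sum_mul, hs, one_mul]

theorem EE_zero_fun (n : ℕ) : EE p x n (fun _ => (0 : ℝ)) = 0 := by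
  have h := EE_mul p x n 0 (fun _ => 0)
  simpa using h

theorem EE_sum (n : ℕ) (J : Type) (A : Finset J) (f : J → ℝ → ℝ) :
    EE p x n (fun s => ∑ j ∈ A, f j s) = ∑ j ∈ A, EE p x n (f j) := by
  classical
  induction A using Finset.induction_on with
  | empty =>
    simp only [sum_empty]
    exact EE_zero_fun p x n
  | insert a A ha ih =>
    simp only [sum_insert ha]
    rw [EE_add p x n (f a) (fun s => ∑ j ∈ A, f j s), ih]

end

theorem eel : S_EEL := by
  intro ι _ p x n
  exact ⟨EE_add p x n, EE_sub p x n, EE_mul p x n, fun hp hx => EE_mono p x hp hx n,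
    fun hs => EE_const p x hs n, EE_sum p x n⟩

end Pool.Agent.Q257.EM
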