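import Pool.Agent.Q54.EM.StmA

/-!
# Project EM: jobs TUP, ONE, TWO, SZB
-/

set_option autoImplicit false
set_option linter.all false

namespace Pool.Agent.Q257.EM

open Finset Pool.Agent.Q54.EM

section
variable {ι : Type} [Fintype ι] (p x : ι → ℝ)

/-- splitting off one coordinate -/
theorem TE_insert (n : ℕ) (j : Fin (n + 1)) (F : (Fin (n + 1) → ι) → ℝ) :
    TE p (n + 1) F = ∑ a, p a * TE p n (fun w => F (j.insertNth a w)) := by
  unfold TE
  rw [← (Fin.insertNthEquiv (fun _ => ι) j).sum_comp, Fintype.sum_prod_type]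
  refine sum_congr rfl fun a _ => ?_
  rw [mul_sum]
  refine sum_congr rfl fun w _ => ?_
  have h1 : (Fin.insertNthEquiv (fun _ => ι) j) (a, w) = j.insertNth a w := rfl
  rw [h1, Fin.prod_univ_succAbove _ j]
  simp only [Fin.insertNth_apply_same, Fin.insertNth_apply_succAbove]
  ring

theorem TE_sum (n : ℕ) (J : Type) (A : Finset J) (F : J → (Fin n → ι) → ℝ) :
    TE p n (fun v => ∑ j ∈ A, F j v) = ∑ j ∈ A, TE p n (F j) := by
  unfold TE
  rw [sum_comm]
  refine sum_congr rfl fun v _ => ?_
  rw [mul_sum]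

theorem TE_mul (n : ℕ) (c : ℝ) (F : (Fin n → ι) → ℝ) :
    TE p n (fun v => c * F v) = c * TE p n F := by
  unfold TE
  rw [mul_sum]
  refine sum_congr rfl fun v _ => ?_
  ring

theorem sum_insert_x (n : ℕ) (j : Fin (n + 1)) (a : ι) (w : Fin n → ι) :
    ∑ i, x ((j.insertNth a w : Fin (n + 1) → ι) i) = x a + ∑ i, x (w i) := by
  rw [Fin.sum_univ_succAbove _ j]
  simp only [Fin.insertNth_apply_same, Fin.insertNth_apply_succAbove]

end

theorem tup : S_TUP := by
  intro ι _ p x n
  induction n with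
  | zero =>
    intro f
    show f 0 = TE p 0 _
    unfold TE
    simp
  | succ n ih =>
    intro f
    rw [TE_insert p n 0]
    show ∑ i, p i * EE p x n (fun s => f (s + x i)) = _
    refine sum_congr rfl fun a _ => ?_
    rw [ih]
    congr 2
    funext w
    rw [sum_insert_x, add_comm]

theorem TE_eq {ι : Type} [Fintype ι] (p x : ι → ℝ) (n : ℕ) (f : ℝ → ℝ) :
    TE p n (fun v => f (∑ i, x (v i))) = EE p x n f := (tup ι p x n f).symm

/-- one coordinate, at a given place -/
theorem one_at {ι : Type} [Fintype ι] (p x : ι → ℝ) (n : ℕ) (g : ι → ℝ → ℝ) (i : Fin (n + 1)) :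
    TE p (n + 1) (fun v => g (v i) (∑ j, x (v j) - x (v i))) = ∑ a, p a * EE p x n (g a) := by
  rw [TE_insert p n i]
  refine sum_congr rfl fun a _ => ?_
  rw [← TE_eq]
  congr 2
  funext w
  rw [sum_insert_x]
  simp only [Fin.insertNth_apply_same]
  rw [add_sub_cancel_left]

theorem sum_EE {ι : Type} [Fintype ι] (p x : ι → ℝ) (n : ℕ) (c : ι → ℝ) (g : ι → ℝ → ℝ) :
    ∑ a, c a * EE p x n (g a) = EE p x n (fun s => ∑ a, c a * g a s) := by
  rw [← TE_eq, TE_sum]
  refine sum_congr rfl fun a _ => ?_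
  rw [TE_mul p n (c a) (fun v => g a (∑ i, x (v i))), TE_eq]

theorem one' : S_ONE := by
  intro ι _ p x n g
  rw [TE_sum]
  simp only [one_at]
  rw [sum_const, card_univ, Fintype.card_fin, nsmul_eq_mul, sum_EE]
  push_cast
  rfl

theorem one : S_TUP → S_ONE := fun _ => one'

theorem two' : S_TWO := by
  intro ι _ p x n g
  rw [TE_sum]
  have h : ∀ i : Fin (n + 2), TE p (n + 2) (fun v => ∑ j ∈ univ.erase i,
      g (v i) (v j) (∑ m, x (v m) - x (v i) - x (v j))) =
      (n + 1 : ℝ) * EE p x n (fun s => ∑ a, ∑ b, p a * p b * g a b s) := by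
    intro i
    rw [TE_insert p (n + 1) i]
    have h1 : ∀ a, p a * TE p (n + 1) (fun w => ∑ j ∈ univ.erase i,
        g ((i.insertNth a w : Fin (n + 2) → ι) i) ((i.insertNth a w : Fin (n + 2) → ι) j)
        (∑ m, x ((i.insertNth a w : Fin (n + 2) → ι) m) -
          x ((i.insertNth a w : Fin (n + 2) → ι) i) - x ((i.insertNth a w : Fin (n + 2) → ι) j))) =
        (n + 1 : ℝ) * (p a * EE p x n (fun s => ∑ b, p b * g a b s)) := by
      intro a
      have h2 := one' ι p x n (fun b s => g a b s)
      rw [mul_left_comm, ← h2]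
      congr 2
      funext w
      rw [sum_insert_x]
      have h3 : ∀ F : Fin (n + 2) → ℝ, ∑ j ∈ univ.erase i, F j = ∑ j' : Fin (n + 1), F (i.succAbove j') := by
        intro F
        have h4 := Fin.sum_univ_succAbove F i
        have h5 := add_sum_erase univ F (mem_univ i)
        linarith
      rw [h3]
      simp only [Fin.insertNth_apply_same, Fin.insertNth_apply_succAbove]
      refine sum_congr rfl fun j _ => ?_
      congr 1
      ring
    rw [sum_congr rfl fun a _ => h1 a, ← mul_sum, sum_EE]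
    congr 2
    funext s
    refine sum_congr rfl fun a _ => ?_
    rw [mul_sum]
    refine sum_congr rfl fun b _ => ?_
    ring
  simp only [h]
  rw [sum_const, card_univ, Fintype.card_fin, nsmul_eq_mul]
  push_cast
  ring

theorem two : S_TUP → S_TWO := fun _ => two'

theorem szb' : S_SZB := by
  intro ι _ p x n f
  have h := one' ι p x n (fun a s => x a * f (s + x a))
  rw [← TE_eq]
  have h1 : (fun v : Fin (n + 1) → ι => (∑ i, x (v i)) * f (∑ i, x (v i))) =
      fun v => ∑ i, x (v i) * f (∑ j, x (v j) - x (v i) + x (v i)) := by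
    funext v
    simp only [sub_add_cancel]
    rw [sum_mul]
  rw [h1, h, ← sum_EE]
  congr 1
  refine sum_congr rfl fun a _ => ?_
  have h2 : EE p x n (fun s => x a * f (s + x a)) = x a * EE p x n (fun s => f (s + x a)) := by
    rw [← TE_eq, TE_mul p n (x a) (fun v => f (∑ i, x (v i) + x a)), TE_eq p x n (fun s => f (s + x a))]
  rw [h2]
  ring

theorem szb : S_TUP → S_ONE → S_SZB := fun _ _ => szb'

end Pool.Agent.Q257.EM
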