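import Pool.Agent.Q54.EM.StmN

/-!
# Project EM: jobs BP, ZT, ZE
-/

set_option autoImplicit false
set_option linter.all false

namespace Pool.Agent.Q257.EM

open Finset Pool.Agent.Q54.EM

theorem bp : S_BP := by
  intro q a c x hq0 hq1 ha0 ha1 hc1 hc2 hx
  have hc0 : 458 / 1000 ≤ c := by linarith
  have hca0 : 0 ≤ c * a := mul_nonneg (by linarith) ha0
  have hca1 : c * a ≤ 4724 / 10000 * (15456 / 100000) := by
    apply mul_le_mul hc2 ha1 ha0 (by norm_num)
  have hca2 : 458 / 1000 * a ≤ c * a := by gcongr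
  have hcca : 0 ≤ c * (c * a) := mul_nonneg (by linarith) hca0
  have hK : 61 / 100 ≤ 1 - c * a - 2 * a := by linarith
  have hexp : q * (1 - c * (1 - c * a - a) + (1 - c * a - 2 * a) * x) =
      q * (1 - c) + q * (c * (c * a)) + q * (c * a) + (1 - c * a - 2 * a) * (q * x) := by ring
  rw [hexp]
  have h1 : 0 ≤ q * (c * (c * a)) := mul_nonneg hq0.le hcca
  rcases hx with ⟨hq2, hq3, hx⟩ | ⟨hq2, hq3, hx⟩ | ⟨hq2, hq3, hx⟩
  · have hqx : 100 / 118 ≤ q * x := by
      have h2 : q * (1 / (q * (118 / 100))) ≤ q * x := by gcongr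
      have h3 : q * (1 / (q * (118 / 100))) = 100 / 118 := by field_simp
      linarith
    have h2 : (1 - c * a - 2 * a) * (100 / 118) ≤ (1 - c * a - 2 * a) * (q * x) := by gcongr
    have h3 : 3 / 10 * (5276 / 10000) ≤ q * (1 - c) := by
      apply mul_le_mul hq3 (by linarith) (by norm_num) hq0.le
    have h4 : (1 - q) * (1 - c * a) = 1 - q - c * a + q * (c * a) := by ring
    rw [h4]
    nlinarith
  · have hS : 0 < 1 - q := by linarith
    have hqx : q * (3963 / 1000 - 1 / (1 - q)) ≤ q * x := by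
      have : 0 ≤ 39 / 100 * a := by positivity
      gcongr
      linarith
    have hy : 0 ≤ 3963 / 1000 - 1 / (1 - q) := by
      have : 1 / (1 - q) ≤ 1 / (38 / 100) := by
        apply one_div_le_one_div_of_le (by norm_num)
        linarith
      have h5 : (1 : ℝ) / (38 / 100) ≤ 3 := by norm_num
      linarith
    have h2 : 61 / 100 * (q * (3963 / 1000 - 1 / (1 - q))) ≤ (1 - c * a - 2 * a) * (q * x) := by
      apply mul_le_mul hK hqx (by positivity) (by linarith)
    have h3 : q * (5276 / 10000) ≤ q * (1 - c) := by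
      gcongr
      linarith
    have h4 : (1 - q) * (1 - c * a) ≤ 1 - q := by nlinarith
    have h5 : 0 ≤ q * (c * a) := mul_nonneg hq0.le hca0
    have h6 : 1 - q ≤ q * (5276 / 10000) + 61 / 100 * (q * (3963 / 1000 - 1 / (1 - q))) := by
      have h7 : q * (5276 / 10000) + 61 / 100 * (q * (3963 / 1000 - 1 / (1 - q))) - (1 - q) =
          ((q * (5276 / 10000) + 61 / 100 * (q * (3963 / 1000)) - (1 - q)) * (1 - q) - 61 / 100 * q) /
            (1 - q) := by
        field_simp
        ring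
      have h8 : 0 ≤ ((q * (5276 / 10000) + 61 / 100 * (q * (3963 / 1000)) - (1 - q)) * (1 - q) -
          61 / 100 * q) / (1 - q) := by
        apply div_nonneg _ hS.le
        nlinarith [mul_nonneg (sub_nonneg.2 hq2) (sub_nonneg.2 hq3)]
      linarith
    linarith
  · have hS : 0 < 1 - q := by linarith
    have hqx : 74 / 100 ≤ q * x := by
      have h2 : c / (1 - q) * q ≤ x * q := by gcongr
      have h3 : 12 / 10 ≤ c / (1 - q) := by
        rw [le_div_iff₀ hS]
        linarith
      nlinarith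
    have h2 : 61 / 100 * (74 / 100) ≤ (1 - c * a - 2 * a) * (q * x) := by
      apply mul_le_mul hK hqx (by norm_num) (by linarith)
    have h3 : 62 / 100 * (5276 / 10000) ≤ q * (1 - c) := by
      apply mul_le_mul hq2 (by linarith) (by norm_num) hq0.le
    have h4 : (1 - q) * (1 - c * a) ≤ 1 - q := by nlinarith
    have h5 : 0 ≤ q * (c * a) := mul_nonneg hq0.le hca0
    linarith

theorem zt : S_NT → S_CS → S_SER → S_EB → S_E18 → S_BP → S_PLS → S_Z0 → S_BXA → S_BXB → S_BXC →
    S_BXD → S_ZT := by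
  intro hNT hCS hSER hEB hE18 hBP hPLS hZ0 hBXA hBXB hBXC hBXD k r l h w1 W hN hq62
  by_contra hl
  push Not at hl
  obtain ⟨q, hq⟩ : ∃ q, q = r / l := ⟨_, rfl⟩
  obtain ⟨a, ha⟩ : ∃ a, a = r / k := ⟨_, rfl⟩
  obtain ⟨c, hc⟩ : ∃ c, c = k * (1 - r) / r := ⟨_, rfl⟩
  obtain ⟨t, ht⟩ : ∃ t, t = 1 - l / k := ⟨_, rfl⟩
  obtain ⟨e, he⟩ : ∃ e, e = l / h - 1 := ⟨_, rfl⟩
  obtain ⟨x, hx⟩ : ∃ x, x = h / r := ⟨_, rfl⟩
  obtain ⟨B, hB⟩ : ∃ B, B = 1 - c * (1 - c * a - a) + (1 - c * a - 2 * a) * x := ⟨_, rfl⟩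
  obtain ⟨n1, n2, n3, n4, n5, n6, n7, n8, n9, n10, n11, n12, n13, n14, n15, n16, n17⟩ :=
    hNT k r l h w1 W q a c t e x B hN hq ha hc ht he hx hB
  obtain ⟨c1, c2, c3, c4, c5, c6, c7, c8, c9⟩ := hCS k r hN.k6 hN.rc
  rw [← ha] at c1 c2 c3 c7
  rw [← hc] at c3 c4 c7
  have hk : (0 : ℝ) < k := by
    have := hN.k6
    exact_mod_cast (by omega : 0 < k)
  have ht2 : 2 / 10 ≤ t := by
    rw [ht]
    have : l / k ≤ 8 / 10 := by
      rw [div_le_iff₀ hk]
      linarith
    linarith
  rw [← hq] at hq62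
  have hc0 : 458 / 1000 ≤ c := by linarith
  rcases le_or_gt q (37 / 100) with hq37 | hq37
  · have hS := hSER q t c n3 (by linarith) (by linarith) n7 (by linarith) (by linarith)
    have hDp := hS.2.2.1 e n6
    rw [← n2] at hDp
    have hEB' := hEB q t c e n3 hq37 (by linarith) n7 (by linarith) (by rw [← n2]; exact c3) c4
      (by rw [← n2]; exact c2) n6 (by rw [← n2]; exact n13)
    rcases le_or_gt q (3 / 10) with hq3 | hq3
    · have hP := hPLS k r l h w1 W q a c t e hN hq ha hc ht he hq3 hEB'.1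
      rcases le_or_gt t (7 / 10) with ht7 | ht7
      · have := hBXA q t c e n3 hq3 ht2 ht7 (by rw [← n2]; exact c2) (by rw [← n2]; exact c3) c4 n6
          hEB'.1 (by rw [← n2]; exact n14)
        linarith
      · have := hBXB q t c e n3 hq3 ht7.le n7 (by rw [← n2]; exact c2) (by rw [← n2]; exact c3) c4 n6
          hEB'.1 (by
            rw [← n2]
            by_cases hp : (1 - q) * (1 - c * a) ≤ q * B
            · exact Or.inl (n16 hp)
            · right
              push Not at hp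
              have h1 : q * B = q * (1 - c * (1 - c * a - a)) + (1 - c * a - 2 * a) / (1 + e) := by
                rw [hB, n8]
                have : (0 : ℝ) < 1 + e := by linarith
                field_simp
              rw [h1] at hp
              exact hp)
        linarith
    · have h18 := hE18 q t c e hq3.le hq37 (by linarith) n7 (by rw [← n2]; exact c3) c4
        (by rw [← n2]; exact c2) n6 (by rw [← n2]; exact n13)
      have ht48 : 48 / 100 ≤ t := by
        by_contra h1
        push Not at h1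
        have h2 : 3 / 10 * (52 / 100) ≤ q * (1 - t) := by
          apply mul_le_mul hq3.le (by linarith) (by norm_num) n3.le
        rw [← n2] at h2
        linarith
      have hx18 : 1 / (q * (118 / 100)) ≤ x := by
        rw [n8]
        apply one_div_le_one_div_of_le (by positivity)
        gcongr
        linarith
      have hpre := hBP q a c x n3 n4 n5.le c2 c3 c4 (Or.inl ⟨hq37, hq3.le, hx18⟩)
      rw [← hB] at hpre
      have := hBXC q t c e hq3.le hq37 ht48 n7 (by rw [← n2]; exact c2) (by rw [← n2]; exact c3) c4 n6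
        hEB'.1 (by rw [← n2]; exact n16 hpre)
      linarith
  · have hx0 : 3963 / 1000 + 39 / 100 * a - 1 / (1 - q) ≤ x := by linarith
    have hpre := hBP q a c x n3 n4 n5.le c2 c3 c4 (Or.inr (Or.inl ⟨hq37.le, hq62, hx0⟩))
    rw [← hB] at hpre
    have h1 := n15 hpre
    have h2 := hBXD q a c x hq37.le hq62 n5.le c2 c3 c4 hx0 n12
    rw [← hB] at h2
    linarith

theorem ze : S_NT → S_CS → S_BP → S_BXE → S_ZE := by
  intro hNT hCS hBP hBXE k r l h w1 W hN hq62
  obtain ⟨q, hq⟩ : ∃ q, q = r / l := ⟨_, rfl⟩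
  obtain ⟨a, ha⟩ : ∃ a, a = r / k := ⟨_, rfl⟩
  obtain ⟨c, hc⟩ : ∃ c, c = k * (1 - r) / r := ⟨_, rfl⟩
  obtain ⟨t, ht⟩ : ∃ t, t = 1 - l / k := ⟨_, rfl⟩
  obtain ⟨e, he⟩ : ∃ e, e = l / h - 1 := ⟨_, rfl⟩
  obtain ⟨x, hx⟩ : ∃ x, x = h / r := ⟨_, rfl⟩
  obtain ⟨B, hB⟩ : ∃ B, B = 1 - c * (1 - c * a - a) + (1 - c * a - 2 * a) * x := ⟨_, rfl⟩
  obtain ⟨n1, n2, n3, n4, n5, n6, n7, n8, n9, n10, n11, n12, n13, n14, n15, n16, n17⟩ :=
    hNT k r l h w1 W q a c t e x B hN hq ha hc ht he hx hB
  obtain ⟨c1, c2, c3, c4, c5, c6, c7, c8, c9⟩ := hCS k r hN.k6 hN.rc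
  rw [← ha] at c1 c2 c3 c7
  rw [← hc] at c3 c4 c7
  rw [← hq] at hq62
  have hc0 : 458 / 1000 ≤ c := by linarith
  have hr0 : 0 < r := by linarith
  have hr1 : r < 1 := hN.rc.2.1
  have hl0 := hN.l0
  have hql : r = q * l := by
    rw [hq]
    field_simp
  have hS : 0 < 1 - q := by linarith
  have hq686 : q ≤ 686 / 1000 := by
    have h1 : c ≤ (1 - q) * (1 / q) := n10.trans (by gcongr)
    have h2 : c * q ≤ 1 - q := by
      have h3 : c * q ≤ (1 - q) * (1 / q) * q := by gcongr
      have h4 : (1 - q) * (1 / q) * q = 1 - q := by field_simp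
      linarith
    have h3 : 458 / 1000 * q ≤ c * q := by gcongr
    linarith
  refine ⟨?_, ?_⟩
  · by_contra hcon
    push Not at hcon
    rw [← hq] at hcon
    have hk1 : k * (1 - r) = c * r := by
      rw [hc]
      field_simp
    have hh1 : h = x * r := by
      rw [hx]
      field_simp
    have hl1 : l = r / q := by
      rw [hql]
      field_simp
    have hz : l * ((1 - q) * h - k * (1 - r)) = r ^ 2 * ((1 - q) * x - c) / q := by
      rw [hk1, hh1, hl1]
      field_simp
    rw [hz, lt_div_iff₀ n3] at hcon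
    have hx1 : (c + 6 / 100 * q / (1 - c * a) ^ 2) / (1 - q) ≤ x := by
      rw [← n1, div_le_iff₀ hS]
      have h1 : 6 / 100 * q / r ^ 2 ≤ (1 - q) * x - c := by
        rw [div_le_iff₀ (by positivity)]
        linarith
      linarith
    have hx2 : c / (1 - q) ≤ x := by
      rw [div_le_iff₀ hS]
      linarith
    have hpre := hBP q a c x n3 n4 n5.le c2 c3 c4 (Or.inr (Or.inr ⟨hq62.le, hq686, hx2⟩))
    rw [← hB] at hpre
    have h1 := n15 hpre
    have h2 := hBXE q a c x hq62.le hq686 n5.le c2 c3 c4 hx1 n12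
    rw [← hB] at h2
    linarith
  · have h1 : 62 / 100 * l ≤ q * l := by gcongr
    linarith

end Pool.Agent.Q257.EM
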