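import Pool.Agent.Q257.EM.EEL
import Pool.Agent.Q257.EM.TUP

/-!
# Project EM: job CND
-/

set_option autoImplicit false
set_option linter.all false

namespace Pool.Agent.Q257.EM

open Finset Pool.Agent.Q54.EM

/-- Chebyshev's sum inequality with weights, opposite monotonicity -/
theorem cheb {ι : Type} [Fintype ι] (p a b : ι → ℝ) (hp : ∀ i, 0 ≤ p i) (hs : ∑ i, p i = 1)
    (h : ∀ i j, (a i - a j) * (b i - b j) ≤ 0) :
    ∑ i, p i * a i * b i ≤ (∑ i, p i * a i) * ∑ i, p i * b i := by
  have h1 : ∑ i, ∑ j, p i * p j * ((a i - a j) * (b i - b j)) ≤ 0 :=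
    sum_nonpos fun i _ => sum_nonpos fun j _ =>
      mul_nonpos_of_nonneg_of_nonpos (mul_nonneg (hp i) (hp j)) (h i j)
  have h2 : ∑ i, ∑ j, p i * p j * ((a i - a j) * (b i - b j)) =
      2 * (∑ i, p i * a i * b i) * (∑ i, p i) - 2 * ((∑ i, p i * a i) * ∑ i, p i * b i) := by
    have e : ∀ i j, p i * p j * ((a i - a j) * (b i - b j)) =
        (p i * a i * b i) * p j - (p i * a i) * (p j * b j) - (p i * b i) * (p j * a j) +
          p i * (p j * a j * b j) := fun i j => by ring
    simp only [e, sum_add_distrib, sum_sub_distrib, ← mul_sum, ← sum_mul]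
    ring
  rw [hs] at h2
  linarith

theorem cnd' : S_CND := by
  intro ι _ p x n y hL
  cases n with
  | zero =>
    show (0 : ℝ) * _ ≤ _
    simp
  | succ n =>
    rw [szb' ι p x n (fun s => if s < y then 1 else 0)]
    set P : ι → ℝ := fun i => EE p x n (fun s => if s + x i < y then 1 else 0) with hP
    have hp : ∀ i, 0 ≤ p i := fun i => (hL.pos i).le
    have h1 : PR p x (n + 1) y = ∑ i, p i * P i := rfl
    have hm : ∀ i j, x i ≤ x j → P j ≤ P i := by
      intro i j hij
      apply EE_mono p x hp hL.nn
      intro s hs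
      split_ifs with h2 h3
      · exact le_rfl
      · exact absurd (by linarith) h3
      · exact zero_le_one
      · exact le_rfl
    have h2 := cheb p x P hp hL.sum (by
      intro i j
      rcases le_total (x i) (x j) with h | h
      · exact mul_nonpos_of_nonpos_of_nonneg (by linarith) (by linarith [hm i j h])
      · exact mul_nonpos_of_nonneg_of_nonpos (by linarith) (by linarith [hm j i h]))
    rw [h1]
    have h3 : mu p x = ∑ i, p i * x i := rfl
    rw [h3, mul_assoc]
    push_cast
    exact mul_le_mul_of_nonneg_left h2 (by positivity)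

theorem cnd : S_SZB → S_EEL → S_CND := fun _ _ => cnd'

end Pool.Agent.Q257.EM
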